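import Mathlib

/-!
Strongly connected digraphs all of whose strongly connected vertex sets are odd.
Helper file for MP_a74ba6_co.
-/

open Relation

set_option linter.unusedSectionVars false
set_option linter.unusedVariables false

namespace Pool.Agent.KS6_47.ECv.H168DD

variable {V : Type*} [DecidableEq V]

/-- Reachability by directed paths inside `S`. -/
def Rch (D : V → V → Prop) (S : Finset V) (a b : V) : Prop :=
  ReflTransGen (fun x y => D x y ∧ x ∈ S ∧ y ∈ S) a b

def SC (D : V → V → Prop) (S : Finset V) : Prop :=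
  ∀ a ∈ S, ∀ b ∈ S, Rch D S a b

structure Odds (D : V → V → Prop) (S : Finset V) : Prop where
  irr : ∀ a, ¬ D a a
  sc : SC D S
  odd : ∀ W ⊆ S, W.Nonempty → SC D W → Odd W.card

def Th (D : V → V → Prop) (S : Finset V) (t t1 t2 : V) : Prop :=
  t ∈ S ∧ t1 ∈ S ∧ t2 ∈ S ∧ (∀ u ∈ S, D u t ↔ u = t1) ∧ (∀ u ∈ S, D t u ↔ u = t2)

def ThE (D : V → V → Prop) (S : Finset V) (t : V) : Prop :=
  ∃ t1 t2, Th D S t t1 t2

def S2 (D : V → V → Prop) (S : Finset V) (c : V) : Prop :=
  (∃ x, ThE D S x ∧ x ≠ c ∧ ¬ D x c ∧ ¬ D c x) ∨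
  (∃ x y, ThE D S x ∧ ThE D S y ∧ D c x ∧ D y c ∧ Rch D (S.erase c) x y)

section basic

variable {D : V → V → Prop} {S T : Finset V} {a b c : V}

lemma Rch.refl : Rch D S a a := ReflTransGen.refl

lemma Rch.single (h : D a b) (ha : a ∈ S) (hb : b ∈ S) : Rch D S a b :=
  ReflTransGen.single ⟨h, ha, hb⟩

lemma Rch.trans (h1 : Rch D S a b) (h2 : Rch D S b c) : Rch D S a c :=
  ReflTransGen.trans h1 h2

lemma Rch.imp {D' : V → V → Prop} (hD : ∀ x y, D x y → x ∈ S → y ∈ S → D' x y ∧ x ∈ T ∧ y ∈ T)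
    (h : Rch D S a b) : Rch D' T a b := by
  unfold Rch at *
  induction h with
  | refl => exact ReflTransGen.refl
  | tail _ h ih => exact ih.tail (hD _ _ h.1 h.2.1 h.2.2)

lemma Rch.mono (hST : S ⊆ T) (h : Rch D S a b) : Rch D T a b :=
  h.imp (fun _ _ h1 h2 h3 => ⟨h1, hST h2, hST h3⟩)

lemma Rch.monoD {D' : V → V → Prop} (hD : ∀ x y, D x y → D' x y) (h : Rch D S a b) :
    Rch D' S a b :=
  h.imp (fun _ _ h1 h2 h3 => ⟨hD _ _ h1, h2, h3⟩)

lemma Rch.tail (h1 : Rch D S a b) (h : D b c) (hb : b ∈ S) (hc : c ∈ S) : Rch D S a c :=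
  ReflTransGen.tail h1 ⟨h, hb, hc⟩

lemma Rch.head (h : D a b) (ha : a ∈ S) (hb : b ∈ S) (h1 : Rch D S b c) : Rch D S a c :=
  ReflTransGen.head ⟨h, ha, hb⟩ h1

lemma Rch.mem_right (h : Rch D S a b) (ha : a ∈ S) : b ∈ S := by
  induction h with
  | refl => exact ha
  | tail _ h _ => exact h.2.2

lemma Rch.mem_left (h : Rch D S a b) (hb : b ∈ S) : a ∈ S := by
  induction h using ReflTransGen.head_induction_on with
  | refl => exact hb
  | head h _ _ => exact h.2.1

lemma Rch.flip (h : Rch D S a b) : Rch (fun x y => D y x) S b a := by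
  unfold Rch at *
  induction h with
  | refl => exact ReflTransGen.refl
  | tail _ h ih => exact ReflTransGen.head ⟨h.1, h.2.2, h.2.1⟩ ih

lemma SC.flip (h : SC D S) : SC (fun x y => D y x) S :=
  fun a ha b hb => (h b hb a ha).flip

lemma Odds.flip (h : Odds D S) : Odds (fun x y => D y x) S :=
  ⟨fun a => h.irr a, h.sc.flip, fun W hW hne hsc => h.odd W hW hne hsc.flip⟩

lemma Th.flip {t t1 t2 : V} (h : Th D S t t1 t2) : Th (fun x y => D y x) S t t2 t1 :=
  ⟨h.1, h.2.2.1, h.2.1, h.2.2.2.2, h.2.2.2.1⟩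

lemma ThE.flip {t : V} (h : ThE D S t) : ThE (fun x y => D y x) S t := by
  obtain ⟨t1, t2, h⟩ := h
  exact ⟨t2, t1, h.flip⟩

lemma S2.flip (h : S2 D S c) : S2 (fun x y => D y x) S c := by
  rcases h with ⟨x, hx, h1, h2, h3⟩ | ⟨x, y, hx, hy, h1, h2, h3⟩
  · exact Or.inl ⟨x, hx.flip, h1, h3, h2⟩
  · exact Or.inr ⟨y, x, hy.flip, hx.flip, h2, h1, h3.flip⟩

/-- a set is strongly connected if one vertex reaches and is reached by all -/
lemma SC.of_hub (v : V) (h1 : ∀ u ∈ S, Rch D S v u) (h2 : ∀ u ∈ S, Rch D S u v) : SC D S :=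
  fun a ha b hb => (h2 a ha).trans (h1 b hb)

lemma Odds.no2 (h : Odds D S) (ha : a ∈ S) (hb : b ∈ S) (h1 : D a b) (h2 : D b a) : False := by
  have hab : a ≠ b := by rintro rfl; exact h.irr _ h1
  have hsc : SC D ({a, b} : Finset V) := by
    apply SC.of_hub a
    · intro u hu
      rcases Finset.mem_insert.1 hu with rfl | hu
      · exact Rch.refl
      · rw [Finset.mem_singleton.1 hu]
        exact Rch.single h1 (by simp) (by simp)
    · intro u hu
      rcases Finset.mem_insert.1 hu with rfl | hu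
      · exact Rch.refl
      · rw [Finset.mem_singleton.1 hu]
        exact Rch.single h2 (by simp) (by simp)
  have := h.odd {a, b} (by intro x hx; simp at hx; rcases hx with rfl | rfl <;> assumption)
    (by simp) hsc
  rw [Finset.card_pair hab] at this
  exact absurd this (by decide)

lemma Odds.card_odd (h : Odds D S) (hne : S.Nonempty) : Odd S.card :=
  h.odd S (Finset.Subset.refl _) hne h.sc

/-- in an `Odds` digraph with a (1,1)-vertex `t`, there is no path from `t1` to `t2` avoiding `t` -/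
lemma Odds.nt (h : Odds D S) {t t1 t2 : V} (ht : Th D S t t1 t2)
    (hp : Rch D (S.erase t) t1 t2) : False := by
  obtain ⟨htS, ht1, ht2, hin, hout⟩ := ht
  have e1 : t1 ≠ t := by
    rintro rfl
    exact h.irr _ ((hin _ ht1).2 rfl)
  have e2 : t2 ≠ t := by
    rintro rfl
    exact h.irr _ ((hout _ ht2).2 rfl)
  have key : SC D (S.erase t) := by
    intro a ha b hb
    have haS := Finset.mem_of_mem_erase ha
    have hbS := Finset.mem_of_mem_erase hb
    have : ∀ x, Rch D S a x → (x ≠ t → Rch D (S.erase t) a x) ∧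
        (x = t → Rch D (S.erase t) a t1) := by
      intro x hx
      induction hx with
      | refl => exact ⟨fun _ => Rch.refl, fun h => absurd h (Finset.ne_of_mem_erase ha)⟩
      | @tail y z _ hyz ih =>
        obtain ⟨hyz, hy, hz⟩ := hyz
        by_cases hyt : y = t
        · subst hyt
          have hz2 : z = t2 := (hout z hz).1 hyz
          subst hz2
          exact ⟨fun _ => (ih.2 rfl).trans hp, fun h => absurd h e2⟩
        · have ihy := ih.1 hyt
          by_cases hzt : z = t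
          · subst hzt
            have : y = t1 := (hin y hy).1 hyz
            subst this
            exact ⟨fun h => absurd rfl h, fun _ => ihy⟩
          · exact ⟨fun _ => ihy.tail hyz (Finset.mem_erase.2 ⟨hyt, hy⟩)
              (Finset.mem_erase.2 ⟨hzt, hz⟩), fun h => absurd h hzt⟩
    exact (this b (h.sc a haS b hbS)).1 (Finset.ne_of_mem_erase hb)
  have o1 := h.odd (S.erase t) (Finset.erase_subset _ _)
    ⟨t1, Finset.mem_erase.2 ⟨e1, ht1⟩⟩ key
  have o2 := h.card_odd ⟨t, htS⟩
  rw [Finset.card_erase_of_mem htS] at o1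
  have : 0 < S.card := Finset.card_pos.2 ⟨t, htS⟩
  obtain ⟨p, hp⟩ := o1
  obtain ⟨q, hq⟩ := o2
  omega

end basic

/-! ### contraction -/

def rep (U : Finset V) (c : V) (x : V) : V := if x ∈ U then c else x

def con (D : V → V → Prop) (U : Finset V) (c : V) : V → V → Prop :=
  fun a b => a ≠ b ∧ ∃ u v, D u v ∧ rep U c u = a ∧ rep U c v = b

section contraction

variable {D : V → V → Prop} {S U W : Finset V} {a b c : V}

lemma rep_of_mem {x : V} (h : x ∈ U) : rep U c x = c := by simp [rep, h]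
lemma rep_of_not_mem {x : V} (h : x ∉ U) : rep U c x = x := by simp [rep, h]

lemma rep_eq_iff_of_ne (hc : c ∈ U) {x y : V} (hy : y ∉ U) : rep U c x = y ↔ x = y := by
  by_cases hx : x ∈ U
  · rw [rep_of_mem hx]
    constructor
    · rintro rfl; exact absurd hc hy
    · rintro rfl; exact absurd hx hy
  · rw [rep_of_not_mem hx]

lemma rep_eq_c_iff (hc : c ∈ U) {x : V} : rep U c x = c ↔ x ∈ U := by
  by_cases hx : x ∈ U
  · simp [rep_of_mem hx, hx]
  · rw [rep_of_not_mem hx]
    constructor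
    · rintro rfl; exact absurd hc hx
    · intro h; exact absurd h hx

lemma con_iff_of_not_mem (hc : c ∈ U) {x y : V} (hx : x ∉ U) (hy : y ∉ U) (irr : ∀ a, ¬ D a a) :
    con D U c x y ↔ D x y := by
  constructor
  · rintro ⟨_, u, v, huv, hu, hv⟩
    rw [rep_eq_iff_of_ne hc hx] at hu
    rw [rep_eq_iff_of_ne hc hy] at hv
    subst hu; subst hv; exact huv
  · intro h
    refine ⟨?_, x, y, h, rep_of_not_mem hx, rep_of_not_mem hy⟩
    rintro rfl; exact irr _ h

lemma con_left_iff (hc : c ∈ U) {x : V} (hx : x ∉ U) :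
    con D U c c x ↔ ∃ u ∈ U, D u x := by
  constructor
  · rintro ⟨_, u, v, huv, hu, hv⟩
    rw [rep_eq_c_iff hc] at hu
    rw [rep_eq_iff_of_ne hc hx] at hv
    subst hv; exact ⟨u, hu, huv⟩
  · rintro ⟨u, hu, h⟩
    exact ⟨by rintro rfl; exact hx hc, u, x, h, rep_of_mem hu, rep_of_not_mem hx⟩

lemma con_right_iff (hc : c ∈ U) {x : V} (hx : x ∉ U) :
    con D U c x c ↔ ∃ u ∈ U, D x u := by
  constructor
  · rintro ⟨_, u, v, huv, hu, hv⟩
    rw [rep_eq_c_iff hc] at hv
    rw [rep_eq_iff_of_ne hc hx] at hu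
    subst hu; exact ⟨v, hv, huv⟩
  · rintro ⟨u, hu, h⟩
    exact ⟨by rintro rfl; exact hx hc, x, u, h, rep_of_not_mem hx, rep_of_mem hu⟩

/-- the vertex set of the contraction -/
def cset (S U : Finset V) (c : V) : Finset V := insert c (S \ U)

lemma mem_cset {x : V} : x ∈ cset S U c ↔ x = c ∨ (x ∈ S ∧ x ∉ U) := by
  simp [cset]

lemma card_cset (hU : U ⊆ S) (hc : c ∈ U) : (cset S U c).card + U.card = S.card + 1 := by
  unfold cset
  rw [Finset.card_insert_of_notMem (by simp [hc]), Finset.card_sdiff_of_subset hU]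
  have := Finset.card_le_card hU
  omega

lemma rep_mem_cset (hx : a ∈ S) : rep U c a ∈ cset S U c := by
  by_cases h : a ∈ U
  · rw [rep_of_mem h]; simp [cset]
  · rw [rep_of_not_mem h]; simp [cset, hx, h]

lemma con_path (h : Rch D S a b) : Rch (con D U c) (cset S U c) (rep U c a) (rep U c b) := by
  unfold Rch at h
  induction h with
  | refl => exact Rch.refl
  | @tail y z _ hyz ih =>
    obtain ⟨hyz, hy, hz⟩ := hyz
    by_cases he : rep U c y = rep U c z
    · rw [← he]; exact ih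
    · exact ih.tail ⟨he, y, z, hyz, rfl, rfl⟩ (rep_mem_cset hy) (rep_mem_cset hz)

lemma con_sc (h : SC D S) (hU : U ⊆ S) (hc : c ∈ U) : SC (con D U c) (cset S U c) := by
  intro a ha b hb
  have : ∀ x ∈ cset S U c, ∃ y ∈ S, rep U c y = x := by
    intro x hx
    rcases mem_cset.1 hx with rfl | ⟨h1, h2⟩
    · exact ⟨x, hU hc, rep_of_mem hc⟩
    · exact ⟨x, h1, rep_of_not_mem h2⟩
  obtain ⟨a', ha', rfl⟩ := this a ha
  obtain ⟨b', hb', rfl⟩ := this b hb
  exact con_path (h a' ha' b' hb')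

/-- lifting a strongly connected set of the contraction -/
lemma con_lift (hc : c ∈ U) (hcW : c ∈ W) (hdis : ∀ x ∈ W, x ∈ U → x = c)
    (hUU : ∀ u ∈ U, ∀ v ∈ U, Rch D ((W.erase c) ∪ U) u v)
    (h : SC (con D U c) W) : SC D ((W.erase c) ∪ U) := by
  have hrep : ∀ x ∈ (W.erase c) ∪ U, rep U c x ∈ W := by
    intro x hx
    by_cases hxU : x ∈ U
    · rw [rep_of_mem hxU]; exact hcW
    · rw [rep_of_not_mem hxU]
      rcases Finset.mem_union.1 hx with h | h
      · exact Finset.mem_of_mem_erase h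
      · exact absurd h hxU
  have hrep' : ∀ x, rep U c x ∈ W → x ∈ (W.erase c) ∪ U := by
    intro x hx
    by_cases hxU : x ∈ U
    · exact Finset.mem_union_right _ hxU
    · rw [rep_of_not_mem hxU] at hx
      refine Finset.mem_union_left _ (Finset.mem_erase.2 ⟨?_, hx⟩)
      rintro rfl; exact hxU hc
  have hsame : ∀ x y, rep U c x = rep U c y → Rch D ((W.erase c) ∪ U) x y := by
    intro x y hxy
    by_cases hxU : x ∈ U
    · rw [rep_of_mem hxU] at hxy
      exact hUU x hxU y ((rep_eq_c_iff hc).1 hxy.symm)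
    · rw [rep_of_not_mem hxU] at hxy
      have := (rep_eq_iff_of_ne hc hxU).1 hxy.symm
      subst this; exact Rch.refl
  intro a ha b hb
  have key : ∀ y, Rch (con D U c) W (rep U c a) y →
      ∀ b, rep U c b = y → Rch D ((W.erase c) ∪ U) a b := by
    intro y hy
    unfold Rch at hy
    induction hy with
    | refl => intro b hb; exact hsame a b hb.symm
    | @tail y z _ hyz ih =>
      intro b hb
      obtain ⟨⟨_, u, v, huv, hu, hv⟩, hy, hz⟩ := hyz
      have h1 := ih u hu
      have hu' : u ∈ (W.erase c) ∪ U := hrep' u (by rw [hu]; exact hy)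
      have hv' : v ∈ (W.erase c) ∪ U := hrep' v (by rw [hv]; exact hz)
      exact (h1.tail huv hu' hv').trans (hsame v b (by rw [hv, hb]))
  exact key _ (h _ (hrep a ha) _ (hrep b hb)) b rfl

lemma con_sc_of_not_mem (hc : c ∈ U) (irr : ∀ a, ¬ D a a) (hdis : ∀ x ∈ W, x ∉ U)
    (h : SC (con D U c) W) : SC D W := by
  intro a ha b hb
  have := h a ha b hb
  refine this.imp ?_
  intro x y h1 h2 h3
  exact ⟨(con_iff_of_not_mem hc (hdis x h2) (hdis y h3) irr).1 h1, h2, h3⟩

/-- F2 -/
lemma Odds.contract (h : Odds D S) (hU : U ⊆ S) (hUsc : SC D U) (hc : c ∈ U) :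
    Odds (con D U c) (cset S U c) := by
  refine ⟨fun a ha => ha.1 rfl, con_sc h.sc hU hc, ?_⟩
  intro W hW hne hsc
  by_cases hcW : c ∈ W
  · have hdis : ∀ x ∈ W, x ∈ U → x = c := by
      intro x hx hxU
      rcases mem_cset.1 (hW hx) with h | h
      · exact h
      · exact absurd hxU h.2
    have hsc' := con_lift (D := D) hc hcW hdis
      (fun u hu v hv => (hUsc u hu v hv).mono Finset.subset_union_right) hsc
    have o1 := h.odd _ (by
      intro x hx
      rcases Finset.mem_union.1 hx with hx | hx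
      · rcases mem_cset.1 (hW (Finset.mem_of_mem_erase hx)) with h | h
        · exact absurd h (Finset.ne_of_mem_erase hx)
        · exact h.1
      · exact hU hx) ⟨c, Finset.mem_union_right _ hc⟩ hsc'
    have o2 := h.odd U hU ⟨c, hc⟩ hUsc
    rw [Finset.card_union_of_disjoint] at o1
    · rw [Finset.card_erase_of_mem hcW] at o1
      have : 0 < W.card := Finset.card_pos.2 hne
      obtain ⟨p, hp⟩ := o1
      obtain ⟨q, hq⟩ := o2
      exact ⟨p - q, by omega⟩
    · rw [Finset.disjoint_left]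
      intro x hx hxU
      exact Finset.ne_of_mem_erase hx (hdis x (Finset.mem_of_mem_erase hx) hxU)
  · have hdis : ∀ x ∈ W, x ∉ U := by
      intro x hx
      rcases mem_cset.1 (hW hx) with h | h
      · subst h; exact absurd hx hcW
      · exact h.2
    refine h.odd W ?_ hne (con_sc_of_not_mem hc h.irr hdis hsc)
    intro x hx
    rcases mem_cset.1 (hW hx) with h | h
    · subst h; exact absurd hx hcW
    · exact h.1

/-- transfer of (1,1)-vertices from the contraction -/
lemma theta_lift (hU : U ⊆ S) (hc : c ∈ U) (irr : ∀ a, ¬ D a a) {x : V} (hxS : x ∈ S) (hxU : x ∉ U)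
    (hx : ThE (con D U c) (cset S U c) x)
    (hin : ∀ u ∈ U, ∀ v ∈ U, D u x → D v x → u = v)
    (hout : ∀ u ∈ U, ∀ v ∈ U, D x u → D x v → u = v) : ThE D S x := by
  obtain ⟨a1, a2, hx1, ha1, ha2, h1, h2⟩ := hx
  have hcon1 : ∀ u ∈ S, D u x → con D U c (rep U c u) x := by
    intro u hu hux
    refine ⟨?_, u, x, hux, rfl, rep_of_not_mem hxU⟩
    intro he
    rw [rep_eq_iff_of_ne hc hxU] at he
    subst he; exact irr _ hux
  have hcon2 : ∀ u ∈ S, D x u → con D U c x (rep U c u) := by
    intro u hu hux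
    refine ⟨?_, x, u, hux, rep_of_not_mem hxU, rfl⟩
    intro he
    rw [eq_comm, rep_eq_iff_of_ne hc hxU] at he
    subst he; exact irr _ hux
  have huniq : ∀ u v, rep U c u = rep U c v → (u = v) ∨ (u ∈ U ∧ v ∈ U) := by
    intro u v huv
    by_cases hu : u ∈ U
    · rw [rep_of_mem hu] at huv
      exact Or.inr ⟨hu, (rep_eq_c_iff hc).1 huv.symm⟩
    · rw [rep_of_not_mem hu] at huv
      exact Or.inl ((rep_eq_iff_of_ne hc hu).1 huv.symm).symm
  have hmem : ∀ u, rep U c u ∈ cset S U c → u ∈ S := by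
    intro u hu
    by_cases h : u ∈ U
    · exact hU h
    · rw [rep_of_not_mem h] at hu
      rcases mem_cset.1 hu with rfl | h'
      · exact absurd hc h
      · exact h'.1
  obtain ⟨_, u1, v1, huv1, hu1, hv1⟩ := (h1 a1 ha1).2 rfl
  rw [rep_eq_iff_of_ne hc hxU] at hv1
  subst hv1
  obtain ⟨_, u2, v2, huv2, hu2, hv2⟩ := (h2 a2 ha2).2 rfl
  rw [rep_eq_iff_of_ne hc hxU] at hu2
  subst hu2
  refine ⟨u1, v2, hxS, hmem u1 (by rw [hu1]; exact ha1), hmem v2 (by rw [hv2]; exact ha2), ?_, ?_⟩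
  · intro u hu
    constructor
    · intro hux
      have e := (h1 _ (rep_mem_cset hu)).1 (hcon1 u hu hux)
      rcases huniq u u1 (by rw [e, hu1]) with h | ⟨h, h'⟩
      · exact h
      · exact hin u h u1 h' hux huv1
    · rintro rfl; exact huv1
  · intro u hu
    constructor
    · intro hux
      have e := (h2 _ (rep_mem_cset hu)).1 (hcon2 u hu hux)
      rcases huniq u v2 (by rw [e, hv2]) with h | ⟨h, h'⟩
      · exact h
      · exact hout u h v2 h' hux huv2
    · rintro rfl; exact huv2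

end contraction

end Pool.Agent.KS6_47.ECv.H168DD
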