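import Pool.Agent.KS6_47.ECv.H.Add

open Relation

set_option linter.unusedSectionVars false
set_option linter.unusedVariables false

namespace Pool.Agent.KS6_47.ECv.H168DD

variable {V : Type*} [DecidableEq V]
variable {D : V → V → Prop} {S W : Finset V} {t t1 t2 c : V}

/-- the induction hypothesis -/
def IHyp (V : Type*) [DecidableEq V] (k : ℕ) : Prop :=
  ∀ (D : V → V → Prop) (S : Finset V) (c : V), S.card < k → 3 ≤ S.card → Odds D S → c ∈ S → S2 D S c

lemma RA (h : Odds D S) (ht : Th D S t t1 t2) (hcard : 5 ≤ S.card) (IH : IHyp V S.card) :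
    (∃ x, ThE D S x ∧ x ≠ t ∧ x ≠ t1 ∧ x ≠ t2 ∧ ¬ D x t1 ∧ ¬ D t1 x ∧ ¬ D x t2 ∧ ¬ D t2 x) ∨
    (∃ x y, x ∈ S ∧ y ∈ S ∧ x ∉ ({t1, t, t2} : Finset V) ∧ y ∉ ({t1, t, t2} : Finset V) ∧
      Rch D (S \ {t1, t, t2}) x y ∧ (D t1 x ∨ D t2 x) ∧ (D y t1 ∨ D y t2) ∧
      ¬ D x t1 ∧ ¬ D x t2 ∧ ¬ D t1 y ∧ ¬ D t2 y ∧
      (¬ (D t1 x ∧ D t2 x) → ThE D S x) ∧ (¬ (D y t1 ∧ D y t2) → ThE D S y) ∧
      ¬ (D t1 x ∧ D y t2)) := by
  have n1 := ht.ne1 h
  have n2 := ht.ne2 h
  have n12 := ht.ne12 h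
  have hc : t2 ∈ ({t1, t, t2} : Finset V) := by simp
  have hU : ({t1, t, t2} : Finset V) ⊆ S := by
    intro x hx
    simp only [Finset.mem_insert, Finset.mem_singleton] at hx
    rcases hx with rfl | rfl | rfl
    · exact ht.2.1
    · exact ht.1
    · exact ht.2.2.1
  have hUc : ({t1, t, t2} : Finset V).card = 3 := by
    rw [Finset.card_insert_of_notMem (by simp [n1, n12]), Finset.card_pair n2.symm]
  have hcc := card_cset hU hc
  have hO := h.retract ht
  have memU : ∀ u ∈ ({t1, t, t2} : Finset V), u = t1 ∨ u = t ∨ u = t2 := by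
    intro u hu; simpa using hu
  -- lifting helper
  have lift : ∀ x ∈ S, x ∉ ({t1, t, t2} : Finset V) →
      ThE (con D {t1, t, t2} t2) (cset S {t1, t, t2} t2) x →
      ¬ (D t1 x ∧ D t2 x) → ¬ (D x t1 ∧ D x t2) → ThE D S x := by
    intro x hxS hxU hx h1 h2
    have hxt1 : x ≠ t1 := by rintro rfl; simp at hxU
    have hxt2 : x ≠ t2 := by rintro rfl; simp at hxU
    have hnt : ¬ D t x := fun hd => hxt2 ((ht.2.2.2.2 x hxS).1 hd)
    have hnt' : ¬ D x t := fun hd => hxt1 ((ht.2.2.2.1 x hxS).1 hd)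
    refine theta_lift hU hc h.irr hxS hxU hx ?_ ?_
    · intro u hu v hv hux hvx
      rcases memU u hu with e | e | e <;> rcases memU v hv with e' | e' | e' <;>
        rw [e] at hux <;> rw [e'] at hvx <;> rw [e, e'] <;> exfalso <;>
        first
        | exact hnt hux
        | exact hnt hvx
        | exact h1 ⟨hux, hvx⟩
        | exact h1 ⟨hvx, hux⟩
    · intro u hu v hv hux hvx
      rcases memU u hu with e | e | e <;> rcases memU v hv with e' | e' | e' <;>
        rw [e] at hux <;> rw [e'] at hvx <;> rw [e, e'] <;> exfalso <;>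
        first
        | exact hnt' hux
        | exact hnt' hvx
        | exact h2 ⟨hux, hvx⟩
        | exact h2 ⟨hvx, hux⟩
  have hS2 := IH _ _ t2 (by omega) (by
    have := hO.card_odd ⟨t2, by simp [cset]⟩
    obtain ⟨p, hp⟩ := this
    omega) hO (by simp [cset])
  have notU : ∀ x, ThE (con D {t1, t, t2} t2) (cset S {t1, t, t2} t2) x → x ≠ t2 →
      x ∈ S ∧ x ∉ ({t1, t, t2} : Finset V) := by
    rintro x ⟨a, b, hx⟩ hne
    rcases mem_cset.1 hx.1 with h | h
    · exact absurd h hne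
    · exact h
  rcases hS2 with ⟨x, hx, hxc, h1, h2⟩ | ⟨x, y, hx, hy, hcx, hyc, hxy⟩
  · left
    obtain ⟨hxS, hxU⟩ := notU x hx hxc
    rw [con_right_iff hc hxU] at h1
    rw [con_left_iff hc hxU] at h2
    push Not at h1 h2
    have a1 := h1 t1 (by simp)
    have a2 := h1 t2 (by simp)
    have b1 := h2 t1 (by simp)
    have b2 := h2 t2 (by simp)
    refine ⟨x, lift x hxS hxU hx (fun h => b1 h.1) (fun h => a1 h.1), ?_, ?_, ?_, a1, b1, a2, b2⟩
    · rintro rfl; simp at hxU
    · rintro rfl; simp at hxU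
    · rintro rfl; simp at hxU
  · right
    have hxc : x ≠ t2 := by rintro rfl; exact hO.irr _ hcx
    have hyc' : y ≠ t2 := by rintro rfl; exact hO.irr _ hyc
    obtain ⟨hxS, hxU⟩ := notU x hx hxc
    obtain ⟨hyS, hyU⟩ := notU y hy hyc'
    have hxm : x ∈ cset S {t1, t, t2} t2 := mem_cset.2 (Or.inr ⟨hxS, hxU⟩)
    have hym : y ∈ cset S {t1, t, t2} t2 := mem_cset.2 (Or.inr ⟨hyS, hyU⟩)
    have hnx : ¬ con D {t1, t, t2} t2 x t2 := fun hd => hO.no2 (by simp [cset]) hxm hcx hd
    have hny : ¬ con D {t1, t, t2} t2 t2 y := fun hd => hO.no2 (by simp [cset]) hym hd hyc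
    rw [con_right_iff hc hxU] at hnx
    rw [con_left_iff hc hyU] at hny
    push Not at hnx hny
    have hxt1 : x ≠ t1 := by rintro rfl; simp at hxU
    have hyt1 : y ≠ t1 := by rintro rfl; simp at hyU
    have hcx' : D t1 x ∨ D t2 x := by
      rw [con_left_iff hc hxU] at hcx
      obtain ⟨u, hu, hux⟩ := hcx
      rcases memU u hu with rfl | rfl | rfl
      · exact Or.inl hux
      · exact absurd ((ht.2.2.2.2 x hxS).1 hux) hxc
      · exact Or.inr hux
    have hyc2 : D y t1 ∨ D y t2 := by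
      rw [con_right_iff hc hyU] at hyc
      obtain ⟨u, hu, hux⟩ := hyc
      rcases memU u hu with rfl | rfl | rfl
      · exact Or.inl hux
      · exact absurd ((ht.2.2.2.1 y hyS).1 hux) hyt1
      · exact Or.inr hux
    have hpath : Rch D (S \ {t1, t, t2}) x y := by
      refine hxy.imp ?_
      intro a b hab ha hb
      have ha' : a ∈ S ∧ a ∉ ({t1, t, t2} : Finset V) := by
        rcases mem_cset.1 (Finset.mem_of_mem_erase ha) with h | h
        · exact absurd h (Finset.ne_of_mem_erase ha)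
        · exact h
      have hb' : b ∈ S ∧ b ∉ ({t1, t, t2} : Finset V) := by
        rcases mem_cset.1 (Finset.mem_of_mem_erase hb) with h | h
        · exact absurd h (Finset.ne_of_mem_erase hb)
        · exact h
      exact ⟨(con_iff_of_not_mem hc ha'.2 hb'.2 h.irr).1 hab,
        Finset.mem_sdiff.2 ha', Finset.mem_sdiff.2 hb'⟩
    refine ⟨x, y, hxS, hyS, hxU, hyU, hpath, hcx', hyc2, hnx t1 (by simp), hnx t2 (by simp),
      hny t1 (by simp), hny t2 (by simp), ?_, ?_, ?_⟩
    · intro hn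
      exact lift x hxS hxU hx hn (fun h => hnx t1 (by simp) h.1)
    · intro hn
      exact lift y hyS hyU hy (fun h => hny t1 (by simp) h.1) hn
    · rintro ⟨hd1, hd2⟩
      apply h.nt ht
      have hsub : S \ {t1, t, t2} ⊆ S.erase t := by
        intro z hz
        rw [Finset.mem_sdiff] at hz
        refine Finset.mem_erase.2 ⟨?_, hz.1⟩
        rintro rfl; simp at hz
      have hxm' : x ∈ S.erase t := hsub (Finset.mem_sdiff.2 ⟨hxS, hxU⟩)
      have hym' : y ∈ S.erase t := hsub (Finset.mem_sdiff.2 ⟨hyS, hyU⟩)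
      exact ((hpath.mono hsub).head hd1 (Finset.mem_erase.2 ⟨n1, ht.2.1⟩) hxm').tail hd2 hym'
        (Finset.mem_erase.2 ⟨n2, ht.2.2.1⟩)

lemma claim1 (h : Odds D S) (ht : Th D S t t1 t2) (hcard : 5 ≤ S.card) (IH : IHyp V S.card) :
    ∃ x, ThE D S x ∧ x ≠ t ∧ x ≠ t1 ∧ x ≠ t2 := by
  rcases RA h ht hcard IH with ⟨x, hx, h1, h2, h3, _⟩ |
    ⟨x, y, hxS, hyS, hxU, hyU, hp, hcx, hyc, n1, n2, n3, n4, lx, ly, hno⟩
  · exact ⟨x, hx, h1, h2, h3⟩
  · by_cases hb : D t1 x ∧ D t2 x
    · have : ¬ (D y t1 ∧ D y t2) := fun h => hno ⟨hb.1, h.2⟩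
      simp only [Finset.mem_insert, Finset.mem_singleton, not_or] at hyU
      exact ⟨y, ly this, hyU.2.1, hyU.1, hyU.2.2⟩
    · simp only [Finset.mem_insert, Finset.mem_singleton, not_or] at hxU
      exact ⟨x, lx hb, hxU.2.1, hxU.1, hxU.2.2⟩

def del (D : V → V → Prop) (v x : V) : V → V → Prop :=
  fun a b => D a b ∧ ¬ (a = v ∧ b = x)

lemma Odds.del_odds (h : Odds D S) {v x : V} (hsc : SC (del D v x) S) : Odds (del D v x) S :=
  ⟨fun a ha => h.irr a ha.1, hsc, fun W hW hne hs =>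
    h.odd W hW hne (fun a ha b hb => (hs a ha b hb).monoD (fun _ _ h => h.1))⟩

/-- Claim R -/
lemma claimR (h : Odds D S) (IH : IHyp V S.card) {v x x' : V} (hv : v ∈ S) (hx : x ∈ S)
    (hx' : x' ∈ S) (hne : x ≠ x') (hvx : D v x) (hvx' : D v x') (hno : ∀ z, ¬ ThE D S z) :
    SC (del D v x) S := by
  classical
  by_contra hsc
  have hvnx : v ≠ x := by rintro rfl; exact h.irr _ hvx
  have hvnx' : v ≠ x' := by rintro rfl; exact h.irr _ hvx'
  have hnr : ¬ Rch (del D v x) S v x := by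
    intro hr
    apply hsc
    intro a ha b hb
    have := h.sc a ha b hb
    unfold Rch at this
    induction this with
    | refl => exact Rch.refl
    | @tail y z _ hyz ih =>
      by_cases he : y = v ∧ z = x
      · obtain ⟨rfl, rfl⟩ := he
        exact (ih hyz.2.1).trans hr
      · exact (ih hyz.2.1).tail ⟨hyz.1, he⟩ hyz.2.1 hyz.2.2
  set U := S.filter (fun u => Rch (del D v x) S v u) with hUdef
  have memU : ∀ u, u ∈ U ↔ u ∈ S ∧ Rch (del D v x) S v u := by intro u; simp [hUdef]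
  have hvU : v ∈ U := (memU _).2 ⟨hv, Rch.refl⟩
  have hx'U : x' ∈ U := (memU _).2 ⟨hx', Rch.single ⟨hvx', fun h => hne h.2.symm⟩ hv hx'⟩
  have hxU : x ∉ U := fun hh => hnr ((memU _).1 hh).2
  have hUS : U ⊆ S := Finset.filter_subset _ _
  -- arcs leaving U
  have hleave : ∀ a ∈ U, ∀ b ∈ S, b ∉ U → D a b → a = v ∧ b = x := by
    intro a ha b hb hbU hab
    by_contra he
    exact hbU ((memU _).2 ⟨hb, ((memU _).1 ha).2.tail ⟨hab, he⟩ (hUS ha) hb⟩)
  have hUsc : SC D U := by
    apply SC.of_hub v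
    · intro u hu
      have h1 : Rch (del D v x) U v u := ((memU _).1 hu).2.closed_from
        (fun y hy hr => (memU _).2 ⟨hy, hr⟩)
      exact h1.monoD (fun _ _ h => h.1)
    · intro u hu
      have key : ∀ a, Rch D S a v → a ∈ U → Rch D U a v := by
        intro a ha
        unfold Rch at ha
        induction ha using ReflTransGen.head_induction_on with
        | refl => intro _; exact Rch.refl
        | @head a b hab _ ih =>
          intro haU
          by_cases hbU : b ∈ U
          · exact (ih hbU).head hab.1 haU hbU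
          · have := (hleave a haU b hab.2.2 hbU hab.1).1
            subst this; exact Rch.refl
      exact key u (h.sc u (hUS hu) v hv) hu
  have hO := h.contract hUS hUsc hvU
  have hcc := card_cset hUS hvU
  have hU2 : 2 ≤ U.card := by
    have : ({v, x'} : Finset V) ⊆ U := by
      intro z hz
      simp only [Finset.mem_insert, Finset.mem_singleton] at hz
      rcases hz with rfl | rfl <;> assumption
    have := Finset.card_le_card this
    rwa [Finset.card_pair hvnx'] at this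
  have hvc : v ∈ cset S U v := by simp [cset]
  have hxc : x ∈ cset S U v := mem_cset.2 (Or.inr ⟨hx, hxU⟩)
  have hc3 : 3 ≤ (cset S U v).card := by
    have : ({v, x} : Finset V) ⊆ cset S U v := by
      intro z hz
      simp only [Finset.mem_insert, Finset.mem_singleton] at hz
      rcases hz with rfl | rfl <;> assumption
    have h2 := Finset.card_le_card this
    rw [Finset.card_pair hvnx] at h2
    obtain ⟨p, hp⟩ := hO.card_odd ⟨v, hvc⟩
    omega
  have hS2 := IH _ _ v (by omega) hc3 hO hvc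
  rcases hS2 with ⟨z, hz, hzc, h1, h2⟩ | ⟨z, y, hz, hy, hcz, hyc, _⟩
  · have hz' : z ∈ S ∧ z ∉ U := by
      obtain ⟨_, _, hz⟩ := hz
      rcases mem_cset.1 hz.1 with h | h
      · exact absurd h hzc
      · exact h
    rw [con_right_iff hvU hz'.2] at h1
    rw [con_left_iff hvU hz'.2] at h2
    push Not at h1 h2
    exact hno z (theta_lift hUS hvU h.irr hz'.1 hz'.2 hz
      (fun u hu _ _ hd _ => absurd hd (h2 u hu)) (fun u hu _ _ hd _ => absurd hd (h1 u hu)))
  · have hzc : z ≠ v := by rintro rfl; exact hO.irr _ hcz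
    have hz' : z ∈ S ∧ z ∉ U := by
      obtain ⟨_, _, hz⟩ := hz
      rcases mem_cset.1 hz.1 with h | h
      · exact absurd h hzc
      · exact h
    have hzm : z ∈ cset S U v := mem_cset.2 (Or.inr hz')
    have h1 : ¬ con D U v z v := fun hd => hO.no2 hvc hzm hcz hd
    rw [con_right_iff hvU hz'.2] at h1
    push Not at h1
    exact hno z (theta_lift hUS hvU h.irr hz'.1 hz'.2 hz
      (fun u hu u' hu' hd hd' => by
        rw [(hleave u hu z hz'.1 hz'.2 hd).1, (hleave u' hu' z hz'.1 hz'.2 hd').1])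
      (fun u hu _ _ hd _ => absurd hd (h1 u hu)))

end Pool.Agent.KS6_47.ECv.H168DD
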