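import Pool.Agent.KS6_47.ECv.H.Dom

open Relation

set_option linter.unusedSectionVars false
set_option linter.unusedVariables false

namespace Pool.Agent.KS6_47.ECv.H168DD

variable {V : Type*} [DecidableEq V]
variable {D : V → V → Prop} {S W R0 : Finset V}

/-- `m` is (the partner function of) a perfect matching of the graph underlying `D` on `T`. -/
def PMs (D : V → V → Prop) (T : Finset V) (m : V → V) : Prop :=
  ∀ x ∈ T, m x ∈ T ∧ m (m x) = x ∧ (D x (m x) ∨ D (m x) x)

lemma even_of_inv : ∀ n (T : Finset V) (m : V → V), T.card = n →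
    (∀ x ∈ T, m x ∈ T ∧ m (m x) = x ∧ m x ≠ x) → Even T.card := by
  intro n
  induction n using Nat.strong_induction_on with
  | _ n ih =>
    intro T m hn h
    rcases T.eq_empty_or_nonempty with rfl | ⟨x, hx⟩
    · simp
    · obtain ⟨h1, h2, h3⟩ := h x hx
      have hc1 : (T.erase x).card + 1 = T.card := Finset.card_erase_add_one hx
      have hmx : m x ∈ T.erase x := Finset.mem_erase.2 ⟨h3, h1⟩
      have hc2 : ((T.erase x).erase (m x)).card + 1 = (T.erase x).card :=
        Finset.card_erase_add_one hmx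
      have := ih ((T.erase x).erase (m x)).card (by omega) _ m rfl (by
        intro y hy
        rw [Finset.mem_erase, Finset.mem_erase] at hy
        obtain ⟨hy1, hy2, hyT⟩ := hy
        obtain ⟨g1, g2, g3⟩ := h y hyT
        refine ⟨?_, g2, g3⟩
        rw [Finset.mem_erase, Finset.mem_erase]
        refine ⟨?_, ?_, g1⟩
        · intro he
          apply hy2
          rw [← g2, he, h2]
        · intro he
          apply hy1
          rw [← g2, he])
      obtain ⟨p, hp⟩ := this
      exact ⟨p + 1, by omega⟩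

lemma good_of_not_sc (anti : ∀ a b, D a b → ¬ D b a)
    (hFC : ∀ w ∈ S, ∃ m, PMs D (S.erase w) m) (hns : ¬ SC D S) :
    ∃ C, Dom D S C ∧ 2 * C.card ≤ S.card := by
  classical
  have irr : ∀ a, ¬ D a a := fun a h => anti a a h h
  have hSne : S.Nonempty := by
    by_contra h
    rw [Finset.not_nonempty_iff_eq_empty] at h
    subst h
    exact hns (fun a ha => by simp at ha)
  -- initial strong component
  obtain ⟨q, hq, hqmin⟩ := Finset.exists_min_image S
    (fun q => (S.filter (fun v => Rch D S v q)).card) hSne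
  set Q := S.filter (fun v => Rch D S v q) with hQ
  have memQ : ∀ v, v ∈ Q ↔ v ∈ S ∧ Rch D S v q := by intro v; simp [hQ]
  have hqQ : q ∈ Q := (memQ _).2 ⟨hq, Rch.refl⟩
  have hQS : Q ⊆ S := Finset.filter_subset _ _
  have hback : ∀ v ∈ Q, Rch D S q v := by
    intro v hv
    have hsub : S.filter (fun x => Rch D S x v) ⊆ Q := by
      intro x hx
      rw [Finset.mem_filter] at hx
      exact (memQ _).2 ⟨hx.1, hx.2.trans ((memQ _).1 hv).2⟩
    have heq := Finset.eq_of_subset_of_card_le hsub (hqmin v (hQS hv))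
    have : q ∈ S.filter (fun x => Rch D S x v) := by rw [heq]; exact hqQ
    exact (Finset.mem_filter.1 this).2
  have hQsc : SC D Q := by
    apply SC.of_hub q
    · intro v hv
      exact (hback v hv).closed_to (fun y hy hr => (memQ _).2 ⟨hy, hr.trans ((memQ _).1 hv).2⟩)
    · intro v hv
      exact ((memQ _).1 hv).2.closed_to (fun y hy hr => (memQ _).2 ⟨hy, hr⟩)
  have hent : ∀ x ∈ S, x ∉ Q → ∀ y ∈ Q, ¬ D x y := by
    intro x hx hxQ y hy hd
    exact hxQ ((memQ _).2 ⟨hx, ((memQ _).1 hy).2.head hd hx (hQS hy)⟩)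
  have hz : ∃ z ∈ S, z ∉ Q := by
    by_contra hcon
    push Not at hcon
    have : Q = S := Finset.Subset.antisymm hQS hcon
    rw [this] at hQsc
    exact hns hQsc
  have hleave : ∃ u ∈ Q, ∃ w ∈ S, w ∉ Q ∧ D u w := by
    by_contra hcon
    push Not at hcon
    have hnadj : ∀ x ∈ Q, ∀ y ∈ S, (D x y ∨ D y x) → y ∈ Q := by
      intro x hx y hy h
      by_contra hyQ
      rcases h with h | h
      · exact hcon x hx y hy hyQ h
      · exact hent y hy hyQ x hx h
    obtain ⟨z, hz, hzQ⟩ := hz
    obtain ⟨m, hm⟩ := hFC z hz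
    obtain ⟨m', hm'⟩ := hFC q hq
    have e1 : Even Q.card := by
      refine even_of_inv _ Q m rfl ?_
      intro x hx
      obtain ⟨h1, h2, h3⟩ := hm x (Finset.mem_erase.2 ⟨by rintro rfl; exact hzQ hx, hQS hx⟩)
      refine ⟨hnadj x hx _ (Finset.mem_of_mem_erase h1) h3, h2, ?_⟩
      intro he; rw [he] at h3
      rcases h3 with h3 | h3 <;> exact irr _ h3
    have e2 : Even (Q.erase q).card := by
      refine even_of_inv _ (Q.erase q) m' rfl ?_
      intro x hx
      rw [Finset.mem_erase] at hx
      obtain ⟨h1, h2, h3⟩ := hm' x (Finset.mem_erase.2 ⟨hx.1, hQS hx.2⟩)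
      refine ⟨Finset.mem_erase.2 ⟨Finset.ne_of_mem_erase h1,
        hnadj x hx.2 _ (Finset.mem_of_mem_erase h1) h3⟩, h2, ?_⟩
      intro he; rw [he] at h3
      rcases h3 with h3 | h3 <;> exact irr _ h3
    have e3 := Finset.card_erase_add_one hqQ
    obtain ⟨p, hp⟩ := e1
    obtain ⟨r, hr⟩ := e2
    omega
  obtain ⟨u, hu, w, hw, hwQ, huw⟩ := hleave
  obtain ⟨m, hm⟩ := hFC w hw
  have hmne : ∀ x ∈ S.erase w, m x ≠ x := by
    intro x hx he
    have := (hm x hx).2.2
    rw [he] at this
    rcases this with h | h <;> exact irr _ h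
  set P := (S \ Q).erase w with hP
  have memP : ∀ x, x ∈ P ↔ x ≠ w ∧ x ∈ S ∧ x ∉ Q := by
    intro x; simp [hP, Finset.mem_erase, Finset.mem_sdiff]
  have hPcard : P.card + 1 + Q.card = S.card := by
    have e1 : P.card + 1 = (S \ Q).card :=
      Finset.card_erase_add_one (Finset.mem_sdiff.2 ⟨hw, hwQ⟩)
    have e2 : (S \ Q).card + Q.card = S.card := Finset.card_sdiff_add_card_eq_card hQS
    omega
  have hPe : ∀ x ∈ P, x ∈ S.erase w := fun x hx =>
    Finset.mem_erase.2 ⟨((memP x).1 hx).1, ((memP x).1 hx).2.1⟩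
  set Co := P.filter (fun x => m x ∉ Q ∧ D x (m x)) with hCo
  set Ci := P.filter (fun x => m x ∉ Q ∧ ¬ D x (m x)) with hCi
  set Px := P.filter (fun x => m x ∈ Q) with hPx
  set T := Q.filter (fun x => m x ∉ Q) with hT
  have hsplit : Co.card + Ci.card + Px.card = P.card := by
    have e1 : Px.card + (P.filter (fun x => ¬ m x ∈ Q)).card = P.card :=
      Finset.card_filter_add_card_filter_not (fun x => m x ∈ Q)
    have e2 : ((P.filter (fun x => ¬ m x ∈ Q)).filter (fun x => D x (m x))).card +
        ((P.filter (fun x => ¬ m x ∈ Q)).filter (fun x => ¬ D x (m x))).card =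
        (P.filter (fun x => ¬ m x ∈ Q)).card :=
      Finset.card_filter_add_card_filter_not (fun x => D x (m x))
    have e3 : (P.filter (fun x => ¬ m x ∈ Q)).filter (fun x => D x (m x)) = Co := by
      ext x; simp only [hCo, Finset.mem_filter]; tauto
    have e4 : (P.filter (fun x => ¬ m x ∈ Q)).filter (fun x => ¬ D x (m x)) = Ci := by
      ext x; simp only [hCi, Finset.mem_filter]; tauto
    rw [e3, e4] at e2
    omega
  have hCoCi : Co.card ≤ Ci.card := by
    apply Finset.card_le_card_of_injOn m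
    · intro x hx
      have hx : x ∈ Co := hx
      rw [hCo, Finset.mem_filter] at hx
      obtain ⟨hxP, hmQ, hd⟩ := hx
      obtain ⟨h1, h2, h3⟩ := hm x (hPe x hxP)
      rw [Finset.mem_coe, hCi, Finset.mem_filter]
      refine ⟨(memP _).2 ⟨Finset.ne_of_mem_erase h1, Finset.mem_of_mem_erase h1, hmQ⟩, ?_, ?_⟩
      · rw [h2]; exact ((memP _).1 hxP).2.2
      · rw [h2]; exact anti _ _ hd
    · intro x hx y hy he
      have hx : x ∈ Co := hx
      have hy : y ∈ Co := hy
      have h1 := (hm x (hPe x (Finset.mem_filter.1 hx).1)).2.1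
      have h2 := (hm y (hPe y (Finset.mem_filter.1 hy).1)).2.1
      have he' : m x = m y := he
      rw [← h1, he', h2]
  have hQe : ∀ x ∈ Q, x ∈ S.erase w := fun x hx =>
    Finset.mem_erase.2 ⟨by rintro rfl; exact hwQ hx, hQS hx⟩
  have hTPx : T.card ≤ Px.card := by
    apply Finset.card_le_card_of_injOn m
    · intro x hx
      have hx : x ∈ T := hx
      rw [hT, Finset.mem_filter] at hx
      obtain ⟨h1, h2, h3⟩ := hm x (hQe x hx.1)
      rw [Finset.mem_coe, hPx, Finset.mem_filter]
      refine ⟨(memP _).2 ⟨Finset.ne_of_mem_erase h1, Finset.mem_of_mem_erase h1, hx.2⟩, ?_⟩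
      rw [h2]; exact hx.1
    · intro x hx y hy he
      have hx : x ∈ T := hx
      have hy : y ∈ T := hy
      have h1 := (hm x (hQe x (Finset.mem_filter.1 hx).1)).2.1
      have h2 := (hm y (hQe y (Finset.mem_filter.1 hy).1)).2.1
      have he' : m x = m y := he
      rw [← h1, he', h2]
  obtain ⟨C, hIC, hC, hCc⟩ := dom_containing (I := insert u T) hQsc (by
    intro x hx
    rcases Finset.mem_insert.1 hx with rfl | hx
    · exact hu
    · exact (Finset.mem_filter.1 hx).1) ⟨u, Finset.mem_insert_self _ _⟩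
  refine ⟨Co ∪ C, ⟨?_, ?_⟩, ?_⟩
  · apply Finset.union_subset
    · intro x hx
      exact ((memP x).1 (Finset.mem_filter.1 hx).1).2.1
    · exact hC.1.trans hQS
  · intro v hv hvC
    rw [Finset.mem_union, not_or] at hvC
    by_cases hvQ : v ∈ Q
    · obtain ⟨y, hy, hyv⟩ := hC.2 v hvQ hvC.2
      exact ⟨y, Finset.mem_union_right _ hy, hyv⟩
    · by_cases hvw : v = w
      · subst hvw
        exact ⟨u, Finset.mem_union_right _ (hIC (Finset.mem_insert_self _ _)), huw⟩
      · have hvP : v ∈ P := (memP v).2 ⟨hvw, hv, hvQ⟩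
        obtain ⟨h1, h2, h3⟩ := hm v (hPe v hvP)
        by_cases hmQ : m v ∈ Q
        · have hT' : m v ∈ T := by
            rw [hT, Finset.mem_filter]
            exact ⟨hmQ, by rw [h2]; exact hvQ⟩
          refine ⟨m v, Finset.mem_union_right _ (hIC (Finset.mem_insert_of_mem hT')), ?_⟩
          rcases h3 with h3 | h3
          · exact absurd h3 (hent v hv hvQ _ hmQ)
          · exact h3
        · have hnd : ¬ D v (m v) := by
            intro hd
            exact hvC.1 (by rw [hCo, Finset.mem_filter]; exact ⟨hvP, hmQ, hd⟩)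
          have hd : D (m v) v := h3.elim (fun h => absurd h hnd) id
          refine ⟨m v, Finset.mem_union_left _ ?_, hd⟩
          rw [hCo, Finset.mem_filter]
          refine ⟨(memP _).2 ⟨Finset.ne_of_mem_erase h1, Finset.mem_of_mem_erase h1, hmQ⟩, ?_, ?_⟩
          · rw [h2]; exact hvQ
          · rw [h2]; exact hd
  · have e1 := Finset.card_union_le Co C
    have e2 := Finset.card_insert_le u T
    omega

/-- Lemma *: near-regular odd sets with near-perfect matchings have small dominating sets. -/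
lemma good_of_near_regular (anti : ∀ a b, D a b → ¬ D b a) {r : ℕ} (hr : 3 ≤ r)
    (hodd : Odd S.card) (h3 : 3 ≤ S.card)
    (hFC : ∀ w ∈ S, ∃ m, PMs D (S.erase w) m)
    (hdeg : ∀ v ∈ S, ind D S v + outd D S v ≤ r)
    (hslack : r * S.card < ∑ v ∈ S, (ind D S v + outd D S v) + r) :
    ∃ C, Dom D S C ∧ 2 * C.card ≤ S.card := by
  by_cases hsc : SC D S
  · by_contra hcon
    push Not at hcon
    have irr : ∀ a, ¬ D a a := fun a h => anti a a h h
    have hO := odds_of_bad irr hsc hcon
    obtain ⟨x, y, hxy, hx, hy⟩ := two_theta hO h3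
    have dx := deg_of_thE hx
    have dy := deg_of_thE hy
    have hxS : x ∈ S := by obtain ⟨_, _, h⟩ := hx; exact h.1
    have hyS : y ∈ S := by obtain ⟨_, _, h⟩ := hy; exact h.1
    have hev : ∑ v ∈ S, (ind D S v + outd D S v) = 2 * ∑ v ∈ S, ind D S v := by
      rw [Finset.sum_add_distrib, sum_outd]; ring
    -- bound
    have hb : ∑ v ∈ S, (ind D S v + outd D S v) + 2 * r ≤ r * S.card + 4 := by
      have hyS' : y ∈ S.erase x := Finset.mem_erase.2 ⟨hxy.symm, hyS⟩
      rw [← Finset.add_sum_erase S _ hxS, ← Finset.add_sum_erase (S.erase x) _ hyS']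
      have hsum : ∑ v ∈ (S.erase x).erase y, (ind D S v + outd D S v) ≤
          ((S.erase x).erase y).card * r := by
        have := Finset.sum_le_card_nsmul ((S.erase x).erase y)
          (fun v => ind D S v + outd D S v) r (fun v hv =>
            hdeg v (Finset.mem_of_mem_erase (Finset.mem_of_mem_erase hv)))
        simpa [smul_eq_mul] using this
      have c1 := Finset.card_erase_add_one hxS
      have c2 := Finset.card_erase_add_one hyS'
      have c3 : ((S.erase x).erase y).card + 2 = S.card := by omega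
      have c4 : r * S.card = ((S.erase x).erase y).card * r + 2 * r := by
        rw [← c3]; ring
      rw [dx.1, dx.2, dy.1, dy.2, c4]
      omega
    have hr3 : r = 3 := by omega
    subst hr3
    rw [hev] at hb hslack
    obtain ⟨p, hp⟩ := hodd
    omega
  · exact good_of_not_sc anti hFC hsc

end Pool.Agent.KS6_47.ECv.H168DD
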